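import Pool.Agent.X14.PA8

/-!
# A q-congruence between a `[4k+1]`-sum and a `[3k+1]`-sum, modulo the full modulus
-/

set_option autoImplicit false

namespace Pool.Agent.Results.MP_19aea4_nt.FullModulus

open Finset

noncomputable section

/-- Polynomials in the three indeterminates `q = X 0`, `a = X 1`, `b = X 2` with rational coefficients. -/
abbrev Poly : Type := MvPolynomial (Fin 3) ℚ

/-- Rational functions in `q`, `a`, `b`. -/
abbrev F : Type := FractionRing Poly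

/-- The inclusion of the polynomials into the rational functions. -/
def inc : Poly →+* F := algebraMap Poly F

/-- The indeterminate `q`. -/
def q : F := inc (MvPolynomial.X 0)

/-- The indeterminate `a`. -/
def a : F := inc (MvPolynomial.X 1)

/-- The indeterminate `b`. -/
def b : F := inc (MvPolynomial.X 2)

/-- The q-integer `[m] = (1 - q^m)/(1 - q)`. -/
def qint (m : ℕ) : F := (1 - q ^ m) / (1 - q)

/-- The q-shifted factorial `(x; y)_j = (1 - x)(1 - x y) ⋯ (1 - x y^{j-1})`. -/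
def poch (x y : F) (j : ℕ) : F := ∏ i ∈ range j, (1 - x * y ^ i)

/-- The sum `L_n`. -/
def L (n : ℕ) : F := ∑ j ∈ range ((n - 1) / 2 + 1), b ^ j * qint (4 * j + 1) *
  ((poch q (q ^ 2) j * poch (a * q) (q ^ 2) j * poch (q / a) (q ^ 2) j * poch (q / b) (q ^ 2) j) /
    (poch (q ^ 2) (q ^ 2) j * poch (a * q ^ 2) (q ^ 2) j * poch (q ^ 2 / a) (q ^ 2) j * poch (b * q ^ 2) (q ^ 2) j))

/-- The sum `R_n`. -/
def R (n : ℕ) : F := ∑ j ∈ range n, b ^ j * (q ^ (j * (j + 1) / 2))⁻¹ * qint (3 * j + 1) *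
  ((poch q (q ^ 2) j * poch (a * q) (q ^ 2) j * poch (q / a) (q ^ 2) j * poch (q / b) q j) /
    (poch q q j * poch (a * q) q j * poch (q / a) q j * poch (b * q ^ 2) (q ^ 2) j))

/-- The modulus `M_n = [n] Φ_n(q) (1 - a q^n) (a - q^n) (b - q^n)`, a polynomial. -/
def M (n : ℕ) : Poly :=
  (∑ i ∈ range n, MvPolynomial.X 0 ^ i) * Polynomial.aeval (MvPolynomial.X 0) (Polynomial.cyclotomic n ℚ) *
    (1 - MvPolynomial.X 1 * MvPolynomial.X 0 ^ n) * (MvPolynomial.X 1 - MvPolynomial.X 0 ^ n) *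
    (MvPolynomial.X 2 - MvPolynomial.X 0 ^ n)

open Pool.Agent.X14 PA

lemma th_CC (p : Polynomial ℚ) : th (Polynomial.C (Polynomial.C p)) = Polynomial.aeval (MvPolynomial.X 0) p := by
  simp only [th, Polynomial.coe_eval₂RingHom, Polynomial.eval₂_C]
  rfl

lemma th_CX : th (Polynomial.C Polynomial.X) = MvPolynomial.X 1 := by
  simp only [th, Polynomial.coe_eval₂RingHom, Polynomial.eval₂_C, Polynomial.eval₂_X]

lemma th_X : th Polynomial.X = MvPolynomial.X 2 := by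
  simp only [th, Polynomial.coe_eval₂RingHom, Polynomial.eval₂_X]

lemma q_eq : q = ph Polynomial.X := by
  rw [ph_eq, am_eq, th_CC, Polynomial.aeval_X]; rfl

lemma a_eq : a = am (Polynomial.C Polynomial.X) := by
  rw [am_eq, th_CX]; rfl

lemma b_eq : b = am Polynomial.X := by
  rw [am_eq, th_X]; rfl

lemma th_sub (x y : Polynomial (Polynomial (Polynomial ℚ))) : th (x - y) = th x - th y := map_sub th x y

lemma th_pow (n : ℕ) : th (Polynomial.C (Polynomial.C (Polynomial.X ^ n))) = MvPolynomial.X 0 ^ n := by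
  rw [th_CC, map_pow, Polynomial.aeval_X]

lemma M_eq (n : ℕ) : th (MM n) = M n := by
  have h1 : th (Polynomial.C (la n)) = 1 - MvPolynomial.X 1 * MvPolynomial.X 0 ^ n := by
    rw [la, Polynomial.C_sub, Polynomial.C_mul, Polynomial.C_1, th_sub, map_mul th, map_one th, th_CX, th_pow]
  have h2 : th (Polynomial.C (ma n)) = MvPolynomial.X 1 - MvPolynomial.X 0 ^ n := by
    rw [ma, Polynomial.C_sub, th_sub, th_CX, th_pow]
  have h3 : th (zb n) = MvPolynomial.X 2 - MvPolynomial.X 0 ^ n := by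
    rw [zb, th_sub, th_X, th_pow]
  have h4 : th (Polynomial.C (Polynomial.C (br n))) = ∑ i ∈ range n, MvPolynomial.X 0 ^ i := by
    rw [th_CC, br, map_sum]
    simp only [map_pow, Polynomial.aeval_X]
  rw [MM, Polynomial.C_mul, Polynomial.C_mul, Polynomial.C_mul (a := la n), map_mul th, map_mul th, map_mul th, map_mul th, h1, h2, h3, h4, th_CC, M]
  ring

lemma a_ne : a ≠ 0 := by
  rw [a_eq]; exact am_ne (by rw [Ne, Polynomial.C_eq_zero]; exact Polynomial.X_ne_zero)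

lemma b_ne : b ≠ 0 := by
  rw [b_eq]; exact am_ne Polynomial.X_ne_zero

lemma sub_div_eq {x y z : F} (hx : x ≠ 0) : 1 - y / x * z = (x - y * z) * x⁻¹ := by
  rw [div_eq_mul_inv, sub_mul, mul_inv_cancel₀ hx]; ring

lemma pw (i : ℕ) : q * (q ^ 2) ^ i = q ^ (2 * i + 1) := by rw [← pow_mul, ← pow_succ']

lemma pw2 (i : ℕ) : q ^ 2 * (q ^ 2) ^ i = q ^ (2 * i + 2) := by rw [← pow_mul, ← pow_add]; congr 1; ring

lemma pw1 (i : ℕ) : q * q ^ i = q ^ (i + 1) := by rw [← pow_succ']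

lemma left_term (j : ℕ) : b ^ j * qint (4 * j + 1) *
  ((poch q (q ^ 2) j * poch (a * q) (q ^ 2) j * poch (q / a) (q ^ 2) j * poch (q / b) (q ^ 2) j) /
    (poch (q ^ 2) (q ^ 2) j * poch (a * q ^ 2) (q ^ 2) j * poch (q ^ 2 / a) (q ^ 2) j * poch (b * q ^ 2) (q ^ 2) j)) = tL q a b j := by
  have h1 : b ^ j * ((poch q (q ^ 2) j * poch (a * q) (q ^ 2) j * poch (q / a) (q ^ 2) j * poch (q / b) (q ^ 2) j) /
    (poch (q ^ 2) (q ^ 2) j * poch (a * q ^ 2) (q ^ 2) j * poch (q ^ 2 / a) (q ^ 2) j * poch (b * q ^ 2) (q ^ 2) j)) =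
    cL q a j * (QQ q b j / EE q b j) := by
    unfold poch cL QQ EE
    rw [← prod_mul_distrib, ← prod_mul_distrib, ← prod_mul_distrib, ← prod_mul_distrib, ← prod_mul_distrib, ← prod_mul_distrib,
      ← prod_div_distrib, ← prod_div_distrib, ← prod_mul_distrib, ← card_range j, ← prod_const, card_range, ← prod_mul_distrib]
    apply prod_congr rfl
    intro i _
    rw [sub_div_eq a_ne, sub_div_eq b_ne, sub_div_eq a_ne, mul_assoc a, mul_assoc a, mul_assoc b, pw, pw2]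
    have ha := a_ne
    have hb := b_ne
    rw [div_eq_mul_inv, div_eq_mul_inv, div_eq_mul_inv]
    simp only [mul_inv, inv_inv]
    have e1 : a⁻¹ * a = 1 := inv_mul_cancel₀ ha
    have e2 : b * b⁻¹ = 1 := mul_inv_cancel₀ hb
    linear_combination ((1 - q ^ (2 * i + 1)) * (1 - a * q ^ (2 * i + 1)) * (a - q ^ (2 * i + 1)) * (b - q ^ (2 * i + 1)) *
      (1 - q ^ (2 * i + 2))⁻¹ * (1 - a * q ^ (2 * i + 2))⁻¹ * (a - q ^ (2 * i + 2))⁻¹ * (1 - b * q ^ (2 * i + 2))⁻¹) * (b * b⁻¹ * e1 + e2)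
  rw [tL]
  unfold qint
  linear_combination ((1 - q ^ (4 * j + 1)) / (1 - q)) * h1

lemma tri_pow (j : ℕ) : q ^ (j * (j + 1) / 2) = ∏ i ∈ range j, q ^ (i + 1) := by
  rw [prod_pow_eq_pow_sum]
  congr 1
  have e3 := sum_range_id_mul_two (j + 1)
  have e4 : ∑ i ∈ range (j + 1), i = ∑ i ∈ range j, (i + 1) := by
    rw [sum_range_succ']; simp
  rw [e4, show j + 1 - 1 = j by omega, mul_comm (j + 1) j] at e3
  omega

lemma right_term (j : ℕ) : b ^ j * (q ^ (j * (j + 1) / 2))⁻¹ * qint (3 * j + 1) *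
  ((poch q (q ^ 2) j * poch (a * q) (q ^ 2) j * poch (q / a) (q ^ 2) j * poch (q / b) q j) /
    (poch q q j * poch (a * q) q j * poch (q / a) q j * poch (b * q ^ 2) (q ^ 2) j)) = tR q a b j := by
  have h1 : b ^ j * ((q ^ (j * (j + 1) / 2))⁻¹ * ((poch q (q ^ 2) j * poch (a * q) (q ^ 2) j * poch (q / a) (q ^ 2) j * poch (q / b) q j) /
    (poch q q j * poch (a * q) q j * poch (q / a) q j * poch (b * q ^ 2) (q ^ 2) j))) =
    cR q a j * (SS q b j / EE q b j) := by
    rw [tri_pow]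
    unfold poch cR SS EE
    rw [← prod_mul_distrib, ← prod_mul_distrib, ← prod_mul_distrib, ← prod_mul_distrib, ← prod_mul_distrib, ← prod_mul_distrib,
      ← prod_div_distrib, ← prod_div_distrib, ← prod_inv_distrib, ← prod_mul_distrib, ← prod_mul_distrib, ← card_range j, ← prod_const, card_range, ← prod_mul_distrib]
    apply prod_congr rfl
    intro i _
    rw [sub_div_eq a_ne, sub_div_eq b_ne, sub_div_eq a_ne, mul_assoc a, mul_assoc a, mul_assoc b, pw, pw2, pw1]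
    have ha := a_ne
    have hb := b_ne
    rw [div_eq_mul_inv, div_eq_mul_inv, div_eq_mul_inv]
    simp only [mul_inv, inv_inv]
    have e1 : a⁻¹ * a = 1 := inv_mul_cancel₀ ha
    have e2 : b * b⁻¹ = 1 := mul_inv_cancel₀ hb
    linear_combination ((q ^ (i + 1))⁻¹ * (1 - q ^ (2 * i + 1)) * (1 - a * q ^ (2 * i + 1)) * (a - q ^ (2 * i + 1)) * (b - q ^ (i + 1)) *
      (1 - q ^ (i + 1))⁻¹ * (1 - a * q ^ (i + 1))⁻¹ * (a - q ^ (i + 1))⁻¹ * (1 - b * q ^ (2 * i + 2))⁻¹) * (b * b⁻¹ * e1 + e2)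
  rw [tR]
  unfold qint
  linear_combination ((1 - q ^ (3 * j + 1)) / (1 - q)) * h1

/-- For every odd `n ≥ 1`: `L_n ≡ R_n` modulo `[n] Φ_n(q) (1 - a q^n) (a - q^n) (b - q^n)`, i.e.
`L_n - R_n = M_n C / D` with polynomials `C`, `D` in `q, a, b` and `D` coprime to `M_n`. -/
theorem result (n : ℕ) (hn : Odd n) :
    ∃ C D : Poly, D ≠ 0 ∧ IsRelPrime D (M n) ∧ L n - R n = inc (M n) * inc C / inc D := by
  obtain ⟨s, hs⟩ := hn
  obtain ⟨C, D, h1, h2, h3⟩ := main_gen hs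
  refine ⟨C, D, h1, by rw [← M_eq]; exact h2, ?_⟩
  have e1 : L n = ∑ j ∈ range (s + 1), tL (ph Polynomial.X) (am (Polynomial.C Polynomial.X)) (am Polynomial.X) j := by
    rw [L, show (n - 1) / 2 + 1 = s + 1 by omega]
    apply sum_congr rfl
    intro j _
    rw [left_term, q_eq, a_eq, b_eq]
  have e2 : R n = ∑ j ∈ range n, tR (ph Polynomial.X) (am (Polynomial.C Polynomial.X)) (am Polynomial.X) j := by
    rw [R]
    apply sum_congr rfl
    intro j _
    rw [right_term, q_eq, a_eq, b_eq]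
  rw [e1, e2, h3, M_eq]
  rfl

end

end Pool.Agent.Results.MP_19aea4_nt.FullModulus
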